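import Pool.Agent.Run7.h400.GK.StmA

/-!
# Project GK, piece VAL: a valuation for the units
-/

set_option autoImplicit false

namespace Pool.Agent.Run7.h929.GK

open Run7.h400.GK Polynomial Finset TensorProduct nonZeroDivisors

/-- the algebra structure of the Laurent series -/
theorem algMap_TT {Fq E : Type} [Field Fq] [Field E] [Algebra Fq E] (c : Fq) :
    algebraMap Fq (LaurentSeries E) c = HahnSeries.C (algebraMap Fq E c) := by
  rw [HahnSeries.algebraMap_apply', PowerSeries.algebraMap_apply, HahnSeries.ofPowerSeries_C]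

/-- the order of a polynomial in `TT` is nonpositive -/
theorem order_aeval_TT_le {Fq E : Type} [Field Fq] [Field E] [Algebra Fq E] (q : ℕ) (hq : 2 ≤ q)
    (c : Fq[X]) (hc : c ≠ 0) :
    (aeval (TT E q) c : LaurentSeries E) ≠ 0 ∧ (aeval (TT E q) c : LaurentSeries E).order ≤ 0 := by
  have hcoe : (aeval (TT E q) c : LaurentSeries E).coeff (c.natDegree • (-((q : ℤ) - 1))) ≠ 0 := by
    rw [aeval_eq_sum_range, HahnSeries.coeff_sum]
    rw [Finset.sum_eq_single c.natDegree]
    · unfold TT
      rw [HahnSeries.single_pow, Algebra.smul_def, algMap_TT,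
        HahnSeries.C_mul_eq_smul, HahnSeries.coeff_smul, HahnSeries.coeff_single_same, smul_eq_mul]
      refine mul_ne_zero ?_ (pow_ne_zero _ (neg_ne_zero.mpr one_ne_zero))
      rw [Ne, FaithfulSMul.algebraMap_eq_zero_iff]
      exact leadingCoeff_ne_zero.mpr hc
    · intro i _ hi
      unfold TT
      rw [HahnSeries.single_pow, Algebra.smul_def, algMap_TT,
        HahnSeries.C_mul_eq_smul, HahnSeries.coeff_smul, HahnSeries.coeff_single_of_ne, smul_zero]
      intro h
      apply hi
      have h2 : (c.natDegree : ℤ) * (-((q : ℤ) - 1)) = (i : ℤ) * (-((q : ℤ) - 1)) := by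
        simpa using h
      have h3 : (-((q : ℤ) - 1)) ≠ 0 := by omega
      have h4 := mul_right_cancel₀ h3 h2
      exact_mod_cast h4.symm
    · intro h
      exact absurd (Finset.mem_range.mpr (Nat.lt_succ_self _)) h
  refine ⟨fun h => hcoe (by rw [h]; rfl), ?_⟩
  refine (HahnSeries.order_le_of_coeff_ne_zero hcoe).trans ?_
  rw [nsmul_eq_mul]
  have : (0 : ℤ) ≤ c.natDegree := by positivity
  nlinarith [this]

/-- a Laurent series of order `0` over a field with `Q` elements: `y^(Q-1) - 1` has positive order -/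
theorem order_pow_sub_one {E : Type} [Field E] [Fintype E] (y : LaurentSeries E) (hy : y ≠ 0)
    (h0 : y.order = 0) (hne : y ^ (Fintype.card E - 1) - 1 ≠ 0) :
    1 ≤ (y ^ (Fintype.card E - 1) - 1).order := by
  have hc0 : y.coeff 0 ≠ 0 := by
    have := HahnSeries.coeff_order_eq_zero.not.mpr hy
    rwa [h0] at this
  have hpow : ∀ n : ℕ, (y ^ n).order = 0 ∧ (y ^ n).coeff 0 = (y.coeff 0) ^ n := by
    intro n
    induction n with
    | zero => simp [HahnSeries.order_one]
    | succ n ih =>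
      have h1 : (y ^ n) ≠ 0 := pow_ne_zero _ hy
      have h2 : (y ^ n * y).order = 0 := by
        rw [HahnSeries.order_mul h1 hy, ih.1, h0, add_zero]
      refine ⟨by rw [pow_succ]; exact h2, ?_⟩
      have h3 := HahnSeries.coeff_mul_order_add_order (y ^ n) y
      rw [ih.1, h0, add_zero, HahnSeries.leadingCoeff_eq, HahnSeries.leadingCoeff_eq, ih.1, h0,
        ih.2] at h3
      rw [pow_succ, h3, pow_succ]
  by_contra hlt
  have hle : (y ^ (Fintype.card E - 1) - 1).order ≤ 0 := by omega
  have hnz := HahnSeries.coeff_order_eq_zero.not.mpr hne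
  rcases eq_or_lt_of_le hle with h | h
  · rw [h, HahnSeries.coeff_sub, (hpow _).2, FiniteField.pow_card_sub_one_eq_one _ hc0,
      HahnSeries.coeff_one, if_pos rfl, sub_self] at hnz
    exact hnz rfl
  · rw [HahnSeries.coeff_sub, HahnSeries.coeff_one, if_neg h.ne, sub_zero] at hnz
    apply hnz
    apply HahnSeries.coeff_eq_zero_of_lt_order
    rw [(hpow _).1]
    exact h

theorem t_VAL : S_GAL → S_EMB → S_VAL := by
  intro hGAL hEMB Fq E F _ _ _ _ _ _ _ _ _ w θ q d lm hD hC
  obtain ⟨ι, hι, a₀, ha₀, hz⟩ := hEMB Fq E F w θ q d lm hD hC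
  obtain ⟨hfd, hgal, hp, u, hu⟩ := hGAL Fq E F w θ q d lm hD hC
  have := hfd
  have := hgal
  have hq2 : 2 ≤ q := by
    rw [hD.hq]
    exact Fintype.one_lt_card
  have hinj : Function.Injective ι := ι.injective
  have hne : ∀ ε : (OF Fq F)ˣ, ι ((ε : OF Fq F) : F) ≠ 0 := by
    intro ε h
    have h1 : ((ε : OF Fq F) : F) = 0 := by
      apply hinj
      rw [h, map_zero]
    have h2 : (ε : OF Fq F) = 0 := Subtype.ext h1
    exact ε.ne_zero h2
  let v : Additive (OF Fq F)ˣ →+ ℤ := AddMonoidHom.mk'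
    (fun ε => (ι (((Additive.toMul ε : (OF Fq F)ˣ) : OF Fq F) : F)).order)
    (by
      intro a b
      change (ι (((Additive.toMul a * Additive.toMul b : (OF Fq F)ˣ) : OF Fq F) : F)).order = _
      rw [Units.val_mul]
      rw [show ((((Additive.toMul a : (OF Fq F)ˣ) : OF Fq F) * ((Additive.toMul b : (OF Fq F)ˣ) : OF Fq F) : OF Fq F) : F)
        = (((Additive.toMul a : (OF Fq F)ˣ) : OF Fq F) : F) * (((Additive.toMul b : (OF Fq F)ˣ) : OF Fq F) : F) from rfl]
      rw [map_mul, HahnSeries.order_mul (hne _) (hne _)])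
  refine ⟨v, ?_⟩
  intro ε hε
  have hv : ∀ σ : F ≃ₐ[RatFunc Fq] F, (ι (σ ((ε : OF Fq F) : F))).order = 0 := fun σ => hε σ
  set n := q ^ d - 1 with hn
  have hcard : Fintype.card E - 1 = n := by rw [hD.hd]
  set x : F := ((ε : OF Fq F) : F) with hx
  suffices hη : x ^ n - 1 = 0 by
    have h1 : ((ε ^ n : (OF Fq F)ˣ) : OF Fq F) = 1 := by
      apply Subtype.ext
      rw [Units.val_pow_eq_pow_val]
      change x ^ n = 1
      exact sub_eq_zero.mp hη
    exact Units.ext h1
  by_contra hη
  have hxint : IsIntegral Fq[X] x := (ε : OF Fq F).2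
  have hηint : IsIntegral Fq[X] (x ^ n - 1) := (hxint.pow n).sub isIntegral_one
  have hnint : IsIntegral Fq[X] (Algebra.norm (RatFunc Fq) (x ^ n - 1)) := Algebra.isIntegral_norm _ hηint
  obtain ⟨c, hc⟩ := IsIntegrallyClosed.isIntegral_iff.mp hnint
  have hprod := Algebra.norm_eq_prod_automorphisms (RatFunc Fq) (x ^ n - 1)
  rw [← hc, ← IsScalarTower.algebraMap_apply] at hprod
  have hσ : ∀ σ : Gal(F/RatFunc Fq), ι (σ (x ^ n - 1)) ≠ 0 ∧ 1 ≤ (ι (σ (x ^ n - 1))).order := by
    intro σ
    have h1 : ι (σ (x ^ n - 1)) ≠ 0 := by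
      intro h
      apply hη
      apply σ.injective
      rw [map_zero]
      apply hinj
      rw [h, map_zero]
    refine ⟨h1, ?_⟩
    have h2 : ι (σ (x ^ n - 1)) = (ι (σ x)) ^ (Fintype.card E - 1) - 1 := by
      rw [map_sub, map_sub, map_pow, map_pow, map_one, map_one, hcard]
    rw [h2] at h1 ⊢
    apply order_pow_sub_one _ _ (hv σ) h1
    intro h
    apply hne ε
    have h3 : σ x = 0 := by
      apply hinj
      rw [h, map_zero]
    have h4 : x = 0 := by
      apply σ.injective
      rw [h3, map_zero]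
    rw [← hx, h4, map_zero]
  have hP : ι (∏ σ : Gal(F/RatFunc Fq), σ (x ^ n - 1)) ≠ 0 ∧
      1 ≤ (ι (∏ σ : Gal(F/RatFunc Fq), σ (x ^ n - 1))).order := by
    rw [map_prod]
    apply Finset.prod_induction_nonempty (p := fun y : LaurentSeries E => y ≠ 0 ∧ 1 ≤ y.order)
    · intro a b ha hb
      refine ⟨mul_ne_zero ha.1 hb.1, ?_⟩
      rw [HahnSeries.order_mul ha.1 hb.1]
      have := ha.2
      have := hb.2
      omega
    · exact Finset.univ_nonempty
    · intro σ _
      exact hσ σ
  rw [← hprod, hι] at hP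
  have hc0 : c ≠ 0 := by
    intro h
    rw [h, map_zero] at hP
    exact hP.1 rfl
  have := (order_aeval_TT_le (E := E) q hq2 c hc0).2
  have := hP.2
  omega

end Pool.Agent.Run7.h929.GK
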