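import Pool.Agent.Run7.h400.GK.StmA
import Pool.Agent.Run7.h400.GK.StmK
import Pool.Agent.Run7.h929.GK.VAL

/-!
# Project GK, piece EMB: the embedding at infinity
-/

set_option autoImplicit false

namespace Pool.Agent.Run7.h929.GK

open Run7.h400.GK Polynomial Finset TensorProduct nonZeroDivisors

/-- the map `lam` for a sequence with the relations of the Gauss sums -/
theorem lam_props {Fq E L : Type} [Field Fq] [Fintype Fq] [Field E] [Fintype E] [Algebra Fq E]
    [Field L] [Algebra E L] (w : Fq[X]) (θ : E) (q d : ℕ) (hD : Dat Fq E w θ q d) (hFRB : S_FRB)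
    (T : L) (g : ℕ → L) (hg0 : ∀ i, g i ≠ 0)
    (hg : ∀ i, g i ^ q = (algebraMap E L (θ ^ (q ^ (i + 1))) - T) * g (i + 1)) (hgd : g d = g 0) :
    (∀ a b : E, lam q d g (a + b) = lam q d g a + lam q d g b) ∧
    (∀ (c : Fq) (a : E), lam q d g (algebraMap Fq E c * a) =
      algebraMap E L (algebraMap Fq E c) * lam q d g a) ∧
    (∀ a : E, lam q d g (θ * a) = T * lam q d g a + lam q d g a ^ q) ∧
    (∀ a : E, lam q d g a = 0 → a = 0) := by
  obtain ⟨-, hinj, hper, -, -, hrep⟩ := hFRB Fq E w θ q d hD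
  obtain ⟨p, hp⟩ := CharP.exists Fq
  obtain ⟨n, hpp, hqn⟩ := FiniteField.card Fq p
  have hq := hD.hq
  rw [hqn] at hq
  have : Fact p.Prime := ⟨hpp⟩
  have : CharP E p := charP_of_injective_algebraMap (algebraMap Fq E).injective p
  have : CharP L p := charP_of_injective_algebraMap (algebraMap E L).injective p
  have hadd : ∀ a b : E, lam q d g (a + b) = lam q d g a + lam q d g b := by
    intro a b
    unfold lam
    rw [← Finset.sum_add_distrib]
    refine Finset.sum_congr rfl fun i _ => ?_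
    rw [hq, ← pow_mul, add_pow_char_pow, map_add, add_mul]
  have hsc : ∀ (c : Fq) (a : E), lam q d g (algebraMap Fq E c * a) =
      algebraMap E L (algebraMap Fq E c) * lam q d g a := by
    intro c a
    unfold lam
    rw [Finset.mul_sum]
    refine Finset.sum_congr rfl fun i _ => ?_
    have h1 : (algebraMap Fq E c) ^ q ^ i = algebraMap Fq E c := by
      rw [← map_pow, hD.hq, FiniteField.pow_card_pow]
    rw [mul_pow, h1, map_mul, mul_assoc]
  have hT : ∀ a : E, lam q d g (θ * a) = T * lam q d g a + lam q d g a ^ q := by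
    intro a
    have h1 : lam q d g a ^ q = ∑ i ∈ range d, algebraMap E L (a ^ (q ^ (i + 1))) *
        ((algebraMap E L (θ ^ (q ^ (i + 1))) - T) * g (i + 1)) := by
      unfold lam
      have h2 : (∑ i ∈ range d, algebraMap E L (a ^ (q ^ i)) * g i) ^ q =
          ∑ i ∈ range d, (algebraMap E L (a ^ (q ^ i)) * g i) ^ q := by
        conv_lhs => rw [hq]
        rw [sum_pow_char_pow]
        rw [← hq]
      rw [h2]
      refine Finset.sum_congr rfl fun i _ => ?_
      rw [mul_pow, hg, ← map_pow, ← pow_mul, pow_succ]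
    have h3 : ∑ i ∈ range d, algebraMap E L (a ^ (q ^ (i + 1))) *
        ((algebraMap E L (θ ^ (q ^ (i + 1))) - T) * g (i + 1)) =
        ∑ i ∈ range d, algebraMap E L (a ^ (q ^ i)) * ((algebraMap E L (θ ^ (q ^ i)) - T) * g i) := by
      have h4 := Finset.sum_range_succ (fun i => algebraMap E L (a ^ (q ^ i)) *
        ((algebraMap E L (θ ^ (q ^ i)) - T) * g i)) d
      have h5 := Finset.sum_range_succ' (fun i => algebraMap E L (a ^ (q ^ i)) *
        ((algebraMap E L (θ ^ (q ^ i)) - T) * g i)) d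
      have h6 : a ^ q ^ d = a := by
        rw [← hD.hd, FiniteField.pow_card]
      have h7 : θ ^ q ^ d = θ := by
        rw [← hD.hd, FiniteField.pow_card]
      have h8 := h4.symm.trans h5
      simp only [pow_zero, pow_one, h6, h7, hgd] at h8
      exact (add_right_cancel h8).symm
    rw [h1, h3]
    unfold lam
    rw [Finset.mul_sum, ← Finset.sum_add_distrib]
    refine Finset.sum_congr rfl fun i _ => ?_
    rw [mul_pow, map_mul]
    ring
  refine ⟨hadd, hsc, hT, ?_⟩
  intro a ha
  by_contra hane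
  have hall : ∀ (b : Fq[X]), lam q d g (aeval θ b * a) = 0 := by
    intro b
    induction b using Polynomial.induction_on' with
    | add f h hf hh => rw [map_add, add_mul, hadd, hf, hh, add_zero]
    | monomial n c =>
      rw [aeval_monomial]
      have hn : ∀ n : ℕ, lam q d g (θ ^ n * a) = 0 := by
        intro n
        induction n with
        | zero => rw [pow_zero, one_mul, ha]
        | succ n ih =>
          rw [pow_succ', mul_assoc, hT, ih, mul_zero, zero_add, zero_pow]
          rw [hD.hq]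
          exact Fintype.card_ne_zero
      rw [mul_assoc, hsc, hn, mul_zero]
  have hall2 : ∀ z : E, lam q d g z = 0 := by
    intro z
    obtain ⟨b, ⟨-, hb⟩, -⟩ := hrep (z * a⁻¹)
    have := hall b
    rwa [hb, mul_assoc, inv_mul_cancel₀ hane, mul_one] at this
  -- independence of characters
  let φ : Fin d → (E →* L) := fun i => (algebraMap E L : E →* L).comp (powMonoidHom (q ^ (i : ℕ)))
  have hφinj : Function.Injective φ := by
    intro i j hij
    have h1 := DFunLike.congr_fun hij θ
    have h2 : algebraMap E L (θ ^ (q ^ (i : ℕ))) = algebraMap E L (θ ^ (q ^ (j : ℕ))) := h1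
    exact Fin.ext (hinj i i.2 j j.2 ((algebraMap E L).injective h2))
  have hli := (linearIndependent_monoidHom E L).comp φ hφinj
  rw [Fintype.linearIndependent_iff] at hli
  have h0 := hli (fun i => g i) (by
    funext z
    rw [Finset.sum_apply]
    have h1 := hall2 z
    unfold lam at h1
    rw [Finset.sum_range] at h1
    rw [Pi.zero_apply, ← h1]
    refine Finset.sum_congr rfl fun i _ => ?_
    rw [mul_comm]
    rfl) ⟨0, hD.hd1⟩
  exact hg0 0 h0

/-- a copy of the field of Laurent series -/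
def LL (E : Type) [Field E] : Type := LaurentSeries E

noncomputable instance instFieldLL (E : Type) [Field E] : Field (LL E) :=
  inferInstanceAs (Field (LaurentSeries E))

noncomputable instance instAlgLL (E : Type) [Field E] : Algebra E (LL E) :=
  inferInstanceAs (Algebra E (LaurentSeries E))

/-- the value of a Carlitz polynomial at `lam a` -/
theorem cact_lam {Fq E L : Type} [Field Fq] [Fintype Fq] [Field E] [Algebra Fq E]
    [Field L] [Algebra E L] [Algebra Fq[X] L] (θ : E) (q : ℕ) (Lm : E → L)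
    (hCAL : S_CAL) (hq : q = Fintype.card Fq)
    (hc : ∀ c : Fq, algebraMap Fq[X] L (C c) = algebraMap E L (algebraMap Fq E c))
    (hadd : ∀ a b : E, Lm (a + b) = Lm a + Lm b)
    (hsc : ∀ (c : Fq) (a : E), Lm (algebraMap Fq E c * a) =
      algebraMap E L (algebraMap Fq E c) * Lm a)
    (hT : ∀ a : E, Lm (θ * a) = algebraMap Fq[X] L X * Lm a + Lm a ^ q)
    (b : Fq[X]) : ∀ (a : E), cact q b (Lm a) = Lm (aeval θ b * a) := by
  obtain ⟨h1, h2, h3, h4, h5, -⟩ := hCAL Fq L q hq
  induction b using Polynomial.induction_on with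
  | C c =>
    intro a
    rw [h4, aeval_C, hsc, hc]
  | add f h hf hh =>
    intro a
    rw [h2, hf, hh, map_add, add_mul, hadd]
  | monomial n c ih =>
    intro a
    rw [pow_succ, ← mul_assoc, h3, h5, ← hT, ih, map_mul (aeval θ) (C c * X ^ n) X, aeval_X,
      mul_assoc (aeval θ (C c * X ^ n)) θ a]

/-- `T` in the copy -/
noncomputable def TL (E : Type) [Field E] (q : ℕ) : LL E := TT E q

/-- the map `lam` for the Gauss sums -/
theorem exists_Lm {Fq E : Type} [Field Fq] [Fintype Fq] [Field E] [Fintype E] [Algebra Fq E]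
    (w : Fq[X]) (θ : E) (q d : ℕ) (hD : Dat Fq E w θ q d) (hFRB : S_FRB) (hGRL : S_GRL) :
    ∃ Lm : E → LL E, (∀ a, Lm a = (lam q d (gk q w θ) a : LaurentSeries E)) ∧
    (∀ a b : E, Lm (a + b) = Lm a + Lm b) ∧
    (∀ (c : Fq) (a : E), Lm (algebraMap Fq E c * a) =
      algebraMap E (LL E) (algebraMap Fq E c) * Lm a) ∧
    (∀ a : E, Lm (θ * a) = TL E q * Lm a + Lm a ^ q) ∧
    (∀ a : E, Lm a = 0 → a = 0) := by
  obtain ⟨-, hinj, hper, hne, hfr, hrep⟩ := hFRB Fq E w θ q d hD
  -- the relations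
  have hg0 : ∀ i, gk q w θ i ≠ 0 := fun i => (hGRL Fq E q _ (θ ^ (q ^ i)) hD.hq (hne i)).1
  have hg : ∀ i, gk q w θ i ^ q =
      (algebraMap E (LaurentSeries E) (θ ^ (q ^ (i + 1))) - TT E q) * gk q w θ (i + 1) := by
    intro i
    have h1 := (hGRL Fq E q (aeval (θ ^ (q ^ i)) (derivative w)) (θ ^ (q ^ i)) hD.hq (hne i)).2
    have h2 : (θ ^ q ^ i) ^ q = θ ^ q ^ (i + 1) := by rw [← pow_mul, pow_succ]
    have h3 : (aeval (θ ^ (q ^ i)) (derivative w)) ^ q = aeval (θ ^ (q ^ (i + 1))) (derivative w) := by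
      rw [hfr i, hfr (i + 1), ← pow_mul, pow_succ]
    rw [h2, h3] at h1
    exact h1
  have hgd : gk q w θ d = gk q w θ 0 := by
    unfold gk
    have := hper 0
    rw [zero_add] at this
    rw [this]
  exact ⟨fun a => (lam q d (gk q w θ) a : LaurentSeries E), fun a => rfl,
    lam_props (L := LaurentSeries E) w θ q d hD hFRB (TT E q) (gk q w θ) hg0 hg hgd⟩

theorem t_EMB : S_CAR → S_CAL → S_FRB → S_TOR → S_GAL → S_HTH → S_SBR → S_GRL → S_EMB := by
  classical
  intro hCAR hCAL hFRB _ hGAL _ _ hGRL Fq E F _ _ _ _ _ _ _ _ _ w θ q d lm hD hC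
  obtain ⟨-, hinj, hper, hne, hfr, hrep⟩ := hFRB Fq E w θ q d hD
  obtain ⟨hfd, -, -, -⟩ := hGAL Fq E F w θ q d lm hD hC
  have hfd' := hfd
  have hq2 : 2 ≤ q := by
    rw [hD.hq]
    exact Fintype.one_lt_card
  obtain ⟨Lm, hLm, hadd, hsc, hT, hz⟩ := exists_Lm w θ q d hD hFRB hGRL
  -- the algebra structures
  let fX : Fq[X] →+* LL E := ((aeval (TT E q) : Fq[X] →ₐ[Fq] LaurentSeries E) : Fq[X] →+* LaurentSeries E)
  have hfX : ∀ c, fX c = (aeval (TT E q) c : LaurentSeries E) := fun c => rfl
  have hfinj : Function.Injective fX := by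
    rw [injective_iff_map_eq_zero]
    intro c hc
    by_contra hc0
    exact (order_aeval_TT_le (E := E) q hq2 c hc0).1 hc
  let algX : Algebra Fq[X] (LL E) := fX.toAlgebra
  have hX : ∀ c, algebraMap Fq[X] (LL E) c = (aeval (TT E q) c : LaurentSeries E) := fun c => rfl
  let fK : RatFunc Fq →+* LL E := IsFractionRing.lift (A := Fq[X]) (g := fX) hfinj
  let algK : Algebra (RatFunc Fq) (LL E) := fK.toAlgebra
  have hK : ∀ c : Fq[X], algebraMap (RatFunc Fq) (LL E) (algebraMap Fq[X] (RatFunc Fq) c) =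
      algebraMap Fq[X] (LL E) c := fun c => IsFractionRing.lift_algebraMap hfinj c
  have htow : IsScalarTower Fq[X] (RatFunc Fq) (LL E) := IsScalarTower.of_algebraMap_eq fun c => (hK c).symm
  have hcC : ∀ c : Fq, algebraMap Fq[X] (LL E) (C c) = algebraMap E (LL E) (algebraMap Fq E c) := by
    intro c
    rw [hX, aeval_C]
    rw [algMap_TT]
    exact (algMap_TT (Fq := E) (E := E) (algebraMap Fq E c)).symm
  have hXT : algebraMap Fq[X] (LL E) X = TL E q := by
    rw [hX, aeval_X]
    rfl
  have hact := cact_lam (L := LL E) θ q Lm hCAL hD.hq hcC hadd hsc (by rw [hXT]; exact hT)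
  -- the polynomial
  obtain ⟨cc, hcc0, hccd, -, hcact⟩ := hCAR Fq w q d hD.hq hD.irr hD.monic hD.deg
  let Cw : (RatFunc Fq)[X] := ∑ i ∈ range (d + 1), C (algebraMap Fq[X] (RatFunc Fq) (cc i)) * X ^ (q ^ i)
  have hCwF : ∀ x : F, aeval x Cw = cact q w x := by
    intro x
    rw [hcact F x, map_sum]
    refine Finset.sum_congr rfl fun i _ => ?_
    rw [map_mul, map_pow, aeval_X, aeval_C, ← IsScalarTower.algebraMap_apply]
  have hCwL : ∀ x : LL E, aeval x Cw = cact q w x := by
    intro x
    rw [hcact (LL E) x, map_sum]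
    refine Finset.sum_congr rfl fun i _ => ?_
    rw [map_mul, map_pow, aeval_X, aeval_C, ← IsScalarTower.algebraMap_apply]
  have hCwmonic : Cw.Monic ∧ Cw.natDegree = q ^ d := by
    have h1 : Cw = X ^ (q ^ d) + ∑ i ∈ range d, C (algebraMap Fq[X] (RatFunc Fq) (cc i)) * X ^ (q ^ i) := by
      change ∑ i ∈ range (d + 1), C (algebraMap Fq[X] (RatFunc Fq) (cc i)) * X ^ (q ^ i) = _
      rw [Finset.sum_range_succ, hccd, map_one, C_1, one_mul, add_comm]
    have h2 : (∑ i ∈ range d, C (algebraMap Fq[X] (RatFunc Fq) (cc i)) * X ^ (q ^ i)).degree <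
        ((q ^ d : ℕ) : WithBot ℕ) := by
      refine (Polynomial.degree_sum_le _ _).trans_lt ?_
      rw [Finset.sup_lt_iff (WithBot.bot_lt_coe _)]
      intro i hi
      refine (Polynomial.degree_C_mul_X_pow_le _ _).trans_lt ?_
      exact_mod_cast Nat.pow_lt_pow_right hq2 (Finset.mem_range.mp hi)
    rw [h1]
    have h3 : (X ^ (q ^ d) + ∑ i ∈ range d, C (algebraMap Fq[X] (RatFunc Fq) (cc i)) * X ^ (q ^ i) :
      (RatFunc Fq)[X]).Monic := monic_X_pow_add h2
    refine ⟨h3, ?_⟩
    apply natDegree_eq_of_degree_eq_some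
    rw [degree_add_eq_left_of_degree_lt (by rw [degree_X_pow]; exact h2), degree_X_pow]
  have hCw0 : aeval θ w = 0 := hD.root
  have hlamroot : ∀ a : E, aeval (Lm a) Cw = 0 := by
    intro a
    rw [hCwL, hact, hCw0, zero_mul]
    have := hsc 0 0
    rw [map_zero, zero_mul, map_zero, zero_mul] at this
    exact this
  have hlaminj : Function.Injective Lm := by
    intro a b hab
    have h1 : Lm (a - b) = 0 := by
      have h2 := hadd (a - b) b
      rw [sub_add_cancel] at h2
      have h3 : Lm a = Lm b := hab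
      rw [h3] at h2
      exact right_eq_add.mp h2
    exact sub_eq_zero.mp (hz _ h1)
  have hmap0 : Cw.map (algebraMap (RatFunc Fq) (LL E)) ≠ 0 := (hCwmonic.1.map _).ne_zero
  have hrootsF : (Finset.univ.image Lm).val ≤
      (Cw.map (algebraMap (RatFunc Fq) (LL E))).roots := by
    rw [Multiset.le_iff_subset (Finset.nodup _)]
    intro x hx
    rw [Finset.mem_val, Finset.mem_image] at hx
    obtain ⟨a, -, rfl⟩ := hx
    rw [mem_roots hmap0, IsRoot.def, eval_map_algebraMap]
    exact hlamroot a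
  have hcardF : (Finset.univ.image Lm).card = q ^ d := by
    rw [Finset.card_image_of_injective _ hlaminj, Finset.card_univ, hD.hd]
  have hrootseq : (Finset.univ.image Lm).val =
      (Cw.map (algebraMap (RatFunc Fq) (LL E))).roots := by
    apply Multiset.eq_of_le_of_card_le hrootsF
    refine (Polynomial.card_roots' _).trans ?_
    rw [natDegree_map, hCwmonic.2]
    exact hcardF.ge
  have hsplit : (Cw.map (algebraMap (RatFunc Fq) (LL E))).Splits := by
    rw [splits_iff_card_roots, ← hrootseq, natDegree_map, hCwmonic.2]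
    exact hcardF
  have hCwlm : aeval lm Cw = 0 := by rw [hCwF, hC.tor]
  have hint : IsIntegral (RatFunc Fq) lm := IsIntegral.of_finite _ _
  have hex : Nonempty (F →ₐ[RatFunc Fq] LL E) := by
    apply IntermediateField.nonempty_algHom_of_adjoin_splits (S := {lm}) _ hC.gen
    intro s hs
    rw [Set.mem_singleton_iff] at hs
    subst hs
    refine ⟨hint, ?_⟩
    exact hsplit.of_dvd hmap0 (Polynomial.map_dvd _ (minpoly.dvd _ _ hCwlm))
  obtain ⟨ι⟩ := hex
  have hιX : ∀ c : Fq[X], ι (algebraMap Fq[X] F c) = algebraMap Fq[X] (LL E) c := by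
    intro c
    rw [IsScalarTower.algebraMap_apply Fq[X] (RatFunc Fq) F, AlgHom.commutes, hK]
  have hroot : ∃ a₀ : E, ι lm = Lm a₀ := by
    have h1 : ι lm ∈ (Cw.map (algebraMap (RatFunc Fq) (LL E))).roots := by
      rw [mem_roots hmap0, IsRoot.def, eval_map_algebraMap, aeval_algHom_apply, hCwlm, map_zero]
    rw [← hrootseq, Finset.mem_val, Finset.mem_image] at h1
    obtain ⟨a, -, ha⟩ := h1
    exact ⟨a, ha.symm⟩
  obtain ⟨a₀, ha₀⟩ := hroot
  refine ⟨(ι : F →+* LL E), hιX, a₀, ?_, ?_⟩
  · rintro rfl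
    apply hC.ne
    apply (ι : F →+* LL E).injective
    rw [map_zero]
    have h2 := hsc 0 0
    rw [map_zero, zero_mul, map_zero, zero_mul] at h2
    exact ha₀.trans h2
  · intro z
    obtain ⟨-, -, -, -, -, hcomp⟩ := hCAL Fq F q hD.hq
    have h1 := hcomp (LL E) (ι : F →+* LL E) hιX (rp (Fq := Fq) θ d z) lm
    have h2 : (rp (Fq := Fq) θ d z).degree < d ∧ aeval θ (rp (Fq := Fq) θ d z) = z := by
      unfold rp
      obtain ⟨b, hb, -⟩ := hrep z
      exact Classical.epsilon_spec (p := fun a : Fq[X] => a.degree < d ∧ aeval θ a = z) ⟨b, hb⟩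
    unfold tz
    rw [← hLm]
    change (ι : F →+* LL E) _ = _
    rw [h1]
    change cact q _ (ι lm) = _
    rw [ha₀, hact, h2.2]

end Pool.Agent.Run7.h929.GK
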