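import Pool.Agent.Run7.h400.GK.StmB

/-!
# Project GK, piece RHO: the action of automorphisms on the class group
-/

set_option autoImplicit false

namespace Pool.Agent.Run7.h929.GK

open Polynomial nonZeroDivisors FractionalIdeal
open Run7.h400.GK

section gen

variable {O : Type} (F : Type) [CommRing O] [IsDomain O] [Field F] [Algebra O F]
  [IsFractionRing O F]

/-- the map on invertible fractional ideals -/
noncomputable def phiG (τ : O ≃+* O) : (FractionalIdeal O⁰ F)ˣ →* (FractionalIdeal O⁰ F)ˣ :=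
  (Units.mapEquiv (ringEquivOfRingEquiv F F τ).toMulEquiv).toMonoidHom

theorem coe_phiG (τ : O ≃+* O) (I : (FractionalIdeal O⁰ F)ˣ) :
    ((phiG F τ I : (FractionalIdeal O⁰ F)ˣ) : FractionalIdeal O⁰ F) =
      ringEquivOfRingEquiv F F τ (I : FractionalIdeal O⁰ F) := rfl

/-- the map on the class group -/
noncomputable def rhoG (τ : O ≃+* O) : ClassGroup O →* ClassGroup O :=
  ((ClassGroup.equiv F).symm.toMonoidHom.comp
    (QuotientGroup.map (toPrincipalIdeal O F).range (toPrincipalIdeal O F).range (phiG F τ)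
      (Subgroup.map_le_iff_le_comap.1
        (FractionalIdeal.map_ringEquivOfRingEquiv_toPrincipalIdeal (K := F) (L := F) τ).le))).comp
    (ClassGroup.equiv F).toMonoidHom

theorem equiv_mk_self (I : (FractionalIdeal O⁰ F)ˣ) :
    ClassGroup.equiv F (ClassGroup.mk F I) =
      QuotientGroup.mk' (toPrincipalIdeal O F).range I := by
  rw [ClassGroup.equiv_mk]
  congr 1
  rw [← Units.val_inj, Units.coe_mapEquiv]
  exact congrArg (fun e : FractionalIdeal O⁰ F ≃+* FractionalIdeal O⁰ F => e I)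
    (FractionalIdeal.canonicalEquiv_self O⁰ F)

theorem rhoG_mk (τ : O ≃+* O) (I : (FractionalIdeal O⁰ F)ˣ) :
    rhoG F τ (ClassGroup.mk F I) = ClassGroup.mk F (phiG F τ I) := by
  apply (ClassGroup.equiv F).injective
  rw [equiv_mk_self]
  simp only [rhoG, MonoidHom.coe_comp, Function.comp_apply, MulEquiv.toMonoidHom_eq_coe,
    MonoidHom.coe_coe]
  rw [MulEquiv.apply_symm_apply, equiv_mk_self]
  rfl

end gen

section ded

variable {O : Type} (F : Type) [CommRing O] [IsDedekindDomain O] [Field F] [Algebra O F]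
  [IsFractionRing O F]

theorem ring_coe (τ : O ≃+* O) (I : Ideal O) :
    ringEquivOfRingEquiv F F τ (I : FractionalIdeal O⁰ F) =
      ((I.map τ : Ideal O) : FractionalIdeal O⁰ F) := by
  ext z
  rw [FractionalIdeal.mem_coeIdeal]
  rw [← FractionalIdeal.mem_coe]
  rw [show ((ringEquivOfRingEquiv F F τ (I : FractionalIdeal O⁰ F) : FractionalIdeal O⁰ F) :
    Submodule O F) = (ringEquivOfRingEquiv F F τ (I : FractionalIdeal O⁰ F)).val from rfl,
    FractionalIdeal.ringEquivOfRingEquiv_apply_val]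
  rw [Submodule.mem_map]
  constructor
  · rintro ⟨y, hy, rfl⟩
    obtain ⟨x, hx, rfl⟩ := (FractionalIdeal.mem_coeIdeal O⁰).1 hy
    refine ⟨τ x, Ideal.mem_map_of_mem τ hx, ?_⟩
    exact (IsFractionRing.ringEquivOfRingEquiv_algebraMap τ x).symm
  · rintro ⟨x, hx, rfl⟩
    obtain ⟨x', hx', rfl⟩ := (Ideal.mem_map_of_equiv τ x).1 hx
    refine ⟨algebraMap O F x', (FractionalIdeal.mem_coeIdeal O⁰).2 ⟨x', hx', rfl⟩, ?_⟩
    exact IsFractionRing.ringEquivOfRingEquiv_algebraMap τ x'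

theorem rhoG_mk0 (τ : O ≃+* O) (I J : (Ideal O)⁰) (h : (J : Ideal O) = (I : Ideal O).map τ) :
    rhoG F τ (ClassGroup.mk0 I) = ClassGroup.mk0 J := by
  rw [← ClassGroup.mk_mk0 F I, ← ClassGroup.mk_mk0 F J, rhoG_mk]
  congr 1
  rw [← Units.val_inj, coe_phiG, FractionalIdeal.coe_mk0, FractionalIdeal.coe_mk0, ring_coe, h]

theorem rhoG_Rt (τ : O ≃+* O) (s : F ≃+* F) (hs : ∀ x : O, s (algebraMap O F x) =
    algebraMap O F (τ x)) (p : ℕ) (h : F) (c : ClassGroup O) (hR : Rt F p h c) :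
    Rt F p (s h) (rhoG F τ c) := by
  obtain ⟨h0, I, hI, rfl⟩ := hR
  refine ⟨?_, phiG F τ I, ?_, (rhoG_mk F τ I).symm⟩
  · intro h1
    exact h0 (by simpa using h1)
  · have h1 : s h = IsFractionRing.ringEquivOfRingEquiv (K := F) (L := F) τ h := by
      obtain ⟨a, b, hb, rfl⟩ := IsFractionRing.div_surjective (A := O) h
      rw [map_div₀, map_div₀, hs, hs, IsFractionRing.ringEquivOfRingEquiv_algebraMap,
        IsFractionRing.ringEquivOfRingEquiv_algebraMap]
    rw [h1, ← FractionalIdeal.ringEquivOfRingEquiv_spanSingleton, hI, ← map_pow, coe_phiG]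

end ded

theorem t_RHO : S_RHO := by
  intro Fq F _ _ _ _ _ _ _ _
  let τ : (F ≃ₐ[RatFunc Fq] F) → (OF Fq F ≃+* OF Fq F) := fun σ =>
    ((σ.restrictScalars Fq[X]).mapIntegralClosure : OF Fq F ≃ₐ[Fq[X]] OF Fq F).toRingEquiv
  refine ⟨fun σ => rhoG F (τ σ), fun σ I J h => ?_, fun p σ h c hR => ?_⟩
  · exact rhoG_mk0 F (τ σ) I J h
  · exact rhoG_Rt F (τ σ) σ.toRingEquiv (fun x => rfl) p h c hR

end Pool.Agent.Run7.h929.GK
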